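import Mathlib

set_option autoImplicit false
set_option maxHeartbeats 400000

namespace Pool.Agent.Results.MP_5d6127_an.Shear

open Metric Filter

/-- normal Loewner chains on the unit bidisc (the unit ball of the maximum norm of `ℂ × ℂ`) -/
structure Chain (f : ℝ → ℂ × ℂ → ℂ × ℂ) : Prop where
  hol : ∀ t, 0 ≤ t → DifferentiableOn ℂ (f t) (ball 0 1)
  inj : ∀ t, 0 ≤ t → Set.InjOn (f t) (ball 0 1)
  zero : ∀ t, 0 ≤ t → f t 0 = 0
  der : ∀ t, 0 ≤ t → fderiv ℂ (f t) 0 = (Real.exp t : ℂ) • ContinuousLinearMap.id ℂ (ℂ × ℂ)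
  mono : ∀ s t, 0 ≤ s → s ≤ t → f s '' ball 0 1 ⊆ f t '' ball 0 1
  normal : ∀ t : ℕ → ℝ, (∀ n, 0 ≤ t n) → ∃ φ : ℕ → ℕ, StrictMono φ ∧ ∃ g : ℂ × ℂ → ℂ × ℂ,
    TendstoLocallyUniformlyOn (fun n z => (Real.exp (-t (φ n)) : ℂ) • f (t (φ n)) z) g atTop
      (ball 0 1)

theorem result (M : ℝ) (hM : 1 < M) : ∃ f : ℝ → ℂ × ℂ → ℂ × ℂ, Chain f ∧
    (∀ z ∈ ball (0 : ℂ × ℂ) 1, ‖f 0 z‖ < M) ∧
    ‖iteratedDeriv 2 (fun w : ℂ => (f 0 (0, w)).1) 0 / 2‖ = min 1 (M - 1) ∧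
    1 - 1 / M < min 1 (M - 1) := by
  have h0 : 0 < min 1 (M - 1) := lt_min one_pos (by linarith)
  have h1 : min 1 (M - 1) ≤ 1 := min_le_left _ _
  have h2 : min 1 (M - 1) ≤ M - 1 := min_le_right _ _
  have h3 : 1 - 1 / M < min 1 (M - 1) := by
    have : 0 < 1 / M := by positivity
    refine lt_min (by linarith) ?_
    rw [one_sub_div (by positivity), div_lt_iff₀ (by positivity)]
    nlinarith
  refine ⟨fun t z => (Real.exp t : ℂ) • (z.1 + (min 1 (M - 1) : ℝ) * z.2 ^ 2, z.2), ?_⟩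
  generalize min 1 (M - 1) = a at *
  have he : ∀ t, (Real.exp t : ℂ) ≠ 0 := fun t => Complex.ofReal_ne_zero.2 (Real.exp_pos t).ne'
  have hb : ∀ z : ℂ × ℂ, z ∈ ball (0 : ℂ × ℂ) 1 ↔ ‖z.1‖ < 1 ∧ ‖z.2‖ < 1 := fun z => by
    rw [mem_ball_zero_iff, Prod.norm_def, max_lt_iff]
  refine ⟨⟨fun t _ => Differentiable.differentiableOn (by fun_prop), fun t _ z _ w _ h => ?_,
    fun t _ => by simp, fun t _ => ?_, fun s t _ hst => ?_, fun t _ => ⟨id, strictMono_id,
      fun z => (z.1 + a * z.2 ^ 2, z.2), ?_⟩⟩, fun z hz => ?_, ?_, h3⟩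
  · have h4 := smul_right_injective _ (he t) h
    rw [Prod.mk.injEq] at h4
    refine Prod.ext ?_ h4.2
    have := h4.1
    rwa [h4.2, add_left_inj] at this
  · have h4 : HasFDerivAt (fun z : ℂ × ℂ => (z.1 + a * z.2 ^ 2, z.2)) _ (0 : ℂ × ℂ) :=
      ((hasFDerivAt_fst (𝕜 := ℂ)).add (((hasFDerivAt_snd (𝕜 := ℂ)).pow 2).const_mul
        (a : ℂ))).prodMk (hasFDerivAt_snd (𝕜 := ℂ))
    refine (h4.const_smul (Real.exp t : ℂ)).fderiv.trans ?_
    ext <;> simp
  · rintro _ ⟨z, hz, rfl⟩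
    obtain ⟨a1, a2⟩ := (hb z).1 hz
    have e0 := Real.exp_pos (s - t)
    have e1 : Real.exp (s - t) ≤ 1 := Real.exp_le_one_iff.2 (by linarith)
    have e2 : Real.exp s = Real.exp t * Real.exp (s - t) := by rw [← Real.exp_add]; simp
    rw [e2]
    generalize Real.exp (s - t) = r at *
    refine ⟨(r * z.1 + (a * r * (1 - r) : ℝ) * z.2 ^ 2, r * z.2), (hb _).2 ⟨?_, ?_⟩, ?_⟩
    · refine (norm_add_le _ _).trans_lt ?_
      have e3 : 0 ≤ a * r * (1 - r) := by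
        have : 0 ≤ 1 - r := by linarith
        positivity
      rw [norm_mul, norm_mul, norm_pow, Complex.norm_real, Complex.norm_real,
        Real.norm_of_nonneg e0.le, Real.norm_of_nonneg e3]
      have e4 : ‖z.2‖ ^ 2 ≤ 1 := pow_le_one₀ (norm_nonneg _) a2.le
      have e5 : a * r ≤ 1 := mul_le_one₀ h1 e0.le e1
      nlinarith [mul_le_of_le_one_right e3 e4, mul_lt_of_lt_one_right e0 a1]
    · rw [norm_mul, Complex.norm_real, Real.norm_of_nonneg e0.le]
      exact mul_lt_one_of_nonneg_of_lt_one_right e1 (norm_nonneg _) a2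
    · ext
      · simp only [Prod.smul_fst, smul_eq_mul]
        push_cast
        ring
      · simp only [Prod.smul_snd, smul_eq_mul]
        push_cast
        ring
  · refine TendstoUniformlyOn.tendstoLocallyUniformlyOn
      (Metric.tendstoUniformlyOn_iff.2 fun ε hε => Eventually.of_forall fun n z _ => ?_)
    rw [smul_smul, ← Complex.ofReal_mul, ← Real.exp_add]
    simpa using hε
  · obtain ⟨a1, a2⟩ := (hb z).1 hz
    simp only [Real.exp_zero, Complex.ofReal_one, one_smul, Prod.norm_def, max_lt_iff]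
    refine ⟨(norm_add_le _ _).trans_lt ?_, by linarith⟩
    rw [norm_mul, norm_pow, Complex.norm_real, Real.norm_of_nonneg h0.le]
    have e4 : ‖z.2‖ ^ 2 ≤ 1 := pow_le_one₀ (norm_nonneg _) a2.le
    nlinarith
  · simp only [Real.exp_zero, Complex.ofReal_one, one_smul, zero_add]
    have e : deriv (fun w : ℂ => a * w ^ 2) = fun w : ℂ => a * (2 * w) := by
      funext w
      simp
    rw [iteratedDeriv_succ', iteratedDeriv_one, e]
    simp [abs_of_pos h0]

end Pool.Agent.Results.MP_5d6127_an.Shear
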